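import Pool.Agent.Lib.MP_a8a7e3_lc.NoHull
import Pool.Agent.Lib.MP_a8a7e3_lc.T11
import Pool.Agent.Lib.MP_a8a7e3_lc.T12
import Pool.Agent.Lib.MP_a8a7e3_lc.T13

set_option autoImplicit false

open Set Topology Filter Cardinal

namespace Pool.Agent.Lib.MP_a8a7e3_lc.Variants.Separation

open Pool.Agent.MP_a8a7e3

/-- Let `κ 0 < κ 1 < ...` be regular uncountable cardinals and `h` a good scale in their product.
If the meager ideal has a basis of `Σ⁰₂` sets which is order-isomorphic to the poset of all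
functions in the product that agree with a member of the scale at all but finitely many places,
then there is a monotone `Π⁰₃` hull operation on the sets with the Baire property, but there is no
monotone `Σ⁰₂` hull operation on them. -/
theorem result (κ : ℕ → Cardinal.{0}) (hreg : ∀ i, (κ i).IsRegular) (hunc : ℵ₀ < κ 0)
    (hκ : StrictMono κ) (Λ : Ordinal.{0}) (h : Ordinal.{0} → ℕ → Ordinal.{0})
    (hs : IsGoodScale κ Λ h) (F : ScalePoset κ Λ h → Set ℝ)
    (hF : ∀ s, IsSigma2 (F s) ∧ IsMeagre (F s))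
    (hiso : ∀ s t, F s ⊆ F t ↔ s ≤ t) (hbasis : ∀ A, IsMeagre A → ∃ s, A ⊆ F s) :
    (∃ ψ, IsMonotoneHullOnBaire IsPi3 ψ) ∧ ¬ ∃ ψ, IsMonotoneHullOnBaire IsSigma2 ψ := by
  refine ⟨pi3_hull F (fun s => (hF s).1) (fun s => (hF s).2) (fun s t hst => (hiso s t).2 hst)
    hbasis (scale_gen κ Λ h hs), ?_⟩
  choose r hr hu using scale_rank κ hreg hunc hκ Λ h hs F (fun s => (hF s).2) hiso hbasis
  exact no_hull_real κ hreg hunc hκ r hr hu

end Pool.Agent.Lib.MP_a8a7e3_lc.Variants.Separation
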